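import Pool.Agent.H250.MR.Stm

/-!
# Lower bound of a Gaussian integral (helper396, for helper250)
-/

set_option autoImplicit false

namespace Pool.Agent.H396.MR

open Pool.Agent.H250.MR MeasureTheory

theorem LB_deriv {A Q : ℝ} (hA : 0 < A) (t : ℝ) :
    HasDerivAt (fun t : ℝ => -Real.exp (-(t * A)) / A +
      Q * Real.exp (-(t * A)) * (t ^ 2 / A + 2 * t / A ^ 2 + 2 / A ^ 3))
      (Real.exp (-(t * A)) * (1 - t ^ 2 * Q)) t := by
  have h1 : HasDerivAt (fun t : ℝ => -(t * A)) (-A) t := by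
    have h := ((hasDerivAt_id t).mul_const A).neg
    rwa [one_mul] at h
  have h2 : HasDerivAt (fun t : ℝ => Real.exp (-(t * A))) (Real.exp (-(t * A)) * -A) t := h1.exp
  have h3 : HasDerivAt (fun t : ℝ => t ^ 2 / A + 2 * t / A ^ 2 + 2 / A ^ 3)
      (2 * t / A + 2 / A ^ 2) t := by
    have e1 : HasDerivAt (fun t : ℝ => t ^ 2 / A) (2 * t / A) t := by
      have h := (hasDerivAt_pow 2 t).div_const A
      simpa using h
    have e2 : HasDerivAt (fun t : ℝ => 2 * t / A ^ 2) (2 / A ^ 2) t := by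
      have h := ((hasDerivAt_id t).const_mul 2).div_const (A ^ 2)
      simpa using h
    exact (e1.add e2).add_const _
  have h4 := (h2.neg.div_const A).add ((h2.const_mul Q).mul h3)
  refine h4.congr_deriv ?_
  field_simp
  ring

theorem LB : S_LB := by
  intro A Q k0 hA hQ hk
  have hcont1 : Continuous fun t : ℝ => Real.exp (-(t * A) - t ^ 2 * Q) := by fun_prop
  have hcont2 : Continuous fun t : ℝ => Real.exp (-(t * A)) * (1 - t ^ 2 * Q) := by fun_prop
  have h1 : ∫ t in (0:ℝ)..k0, Real.exp (-(t * A)) * (1 - t ^ 2 * Q) ≤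
      ∫ t in (0:ℝ)..k0, Real.exp (-(t * A) - t ^ 2 * Q) := by
    refine intervalIntegral.integral_mono hk (hcont2.intervalIntegrable _ _)
      (hcont1.intervalIntegrable _ _) fun t => ?_
    have h2 : -(t * A) - t ^ 2 * Q = -(t * A) + -(t ^ 2 * Q) := by ring
    change Real.exp (-(t * A)) * (1 - t ^ 2 * Q) ≤ Real.exp (-(t * A) - t ^ 2 * Q)
    rw [h2, Real.exp_add]
    refine mul_le_mul_of_nonneg_left ?_ (Real.exp_pos _).le
    have := Real.add_one_le_exp (-(t ^ 2 * Q))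
    linarith
  refine le_trans ?_ h1
  rw [intervalIntegral.integral_eq_sub_of_hasDerivAt (fun t _ => LB_deriv hA t)
    (hcont2.intervalIntegrable _ _)]
  have h3 : 0 ≤ Q * Real.exp (-(k0 * A)) * (k0 ^ 2 / A + 2 * k0 / A ^ 2 + 2 / A ^ 3) := by
    positivity
  have h4 : -Real.exp (-(0 * A)) / A +
      Q * Real.exp (-(0 * A)) * (0 ^ 2 / A + 2 * 0 / A ^ 2 + 2 / A ^ 3) =
      -1 / A + 2 * Q / A ^ 3 := by
    rw [zero_mul, neg_zero, Real.exp_zero]
    ring
  have h5 : (1 - Real.exp (-(k0 * A)) - 2 * Q / A ^ 2) / A =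
      -Real.exp (-(k0 * A)) / A - (-1 / A + 2 * Q / A ^ 3) := by
    field_simp
    ring
  rw [h4, h5]
  linarith

end Pool.Agent.H396.MR
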